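import Pool.Agent.Helper3.FewP.GoalsB

/-! # STRIP-BIN: independence of the block vectors (MP_d3128a_ag). -/

set_option autoImplicit false

namespace Pool.Agent.Helper49.FewP.BIN

open Pool.Agent.Helper3.FewP Pool.Agent.Helper97.Tate

theorem t : G_BIN := by
  intro b κ' P M ρ C i0 l0 hκ hP hρ hpos hi0 hind
  classical
  rw [Fintype.linearIndependent_iff]
  intro w hw p0
  set a : ℤ × ℤ → ℚ := fun p => if h : p ∈ C then
    (if i0 ⟨p, h⟩ = i0 p0 then w ⟨p, h⟩ * ρ ^ l0 ⟨p, h⟩ else 0) else 0 with ha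
  have hkey := hind (i0 p0 : ℕ) (i0 p0).2 a ?_ p0.1 ?_
  · rw [ha] at hkey
    simp only [p0.2, dif_pos, if_true] at hkey
    rcases mul_eq_zero.mp hkey with h | h
    · exact h
    · exact absurd h (zpow_ne_zero _ hρ)
  · intro α β hαβ
    have h1 := congrFun hw (i0 p0, ⟨(⟨α, by omega⟩, ⟨β, by omega⟩), hαβ⟩)
    rw [Finset.sum_filter, ← Finset.sum_coe_sort C]
    rw [Finset.sum_apply] at h1
    refine Eq.trans ?_ h1
    refine Finset.sum_congr rfl fun p _ => ?_
    have ha1 : a p.1 = if i0 p = i0 p0 then w p * ρ ^ l0 p else 0 := by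
      rw [ha]
      simp only [p.2, dif_pos]
    rw [ha1]
    simp only [Pi.smul_apply, smul_eq_mul]
    by_cases h2 : i0 p = i0 p0
    · have h3 := hi0 p
      rw [h2] at h3
      rw [if_pos h3, if_pos h2, if_pos h2.symm]
      have h4 : Ring.choose p.1.1 β = ((p.1.1.toNat.choose β : ℕ) : ℤ) := by
        have h5 := Ring.choose_natCast (R := ℤ) p.1.1.toNat β
        rw [Int.toNat_of_nonneg (hpos p.1 p.2)] at h5
        exact h5
      rw [h4, Int.cast_natCast]
      ring
    · rw [if_neg h2, zero_mul, ite_self, if_neg (fun h => h2 h.symm), mul_zero]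
  · rw [Finset.mem_filter]
    exact ⟨p0.2, hi0 p0⟩

end Pool.Agent.Helper49.FewP.BIN
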